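import Mathlib

namespace Pool.Agent.Results.MP_df35d7_lc.SqrtOrder

open MeasureTheory

/-- A task for `n` machines: its weight, its set of admissible machines, its arrival time and its
duration.  It occupies its machine during `[arrival, arrival + duration)`. -/
structure Task (n : ℕ) where
  weight : ℝ
  adm : Finset (Fin n)
  arrival : ℝ
  duration : ℝ

/-- The input sequences: positive weights, nonempty sets of admissible machines, all durations at
least `d` (the minimum possible duration), arrival in the order of the list. -/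
def Legal {n : ℕ} (d : ℝ) (σ : List (Task n)) : Prop :=
  (∀ t ∈ σ, 0 < t.weight ∧ t.adm.Nonempty ∧ d ≤ t.duration) ∧
    σ.Pairwise (fun s t => s.arrival ≤ t.arrival)

/-- The load of machine `i` at time `s` when the tasks of `σ` are assigned, in this order, to the
machines listed in `a`. -/
noncomputable def load {n : ℕ} (σ : List (Task n)) (a : List (Fin n)) (s : ℝ) (i : Fin n) : ℝ :=
  ((σ.zip a).map fun p =>
    if p.2 = i ∧ p.1.arrival ≤ s ∧ s < p.1.arrival + p.1.duration then p.1.weight else 0).sum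

/-- The cost of an assignment: the maximum load over all times and machines. -/
noncomputable def cost {n : ℕ} (σ : List (Task n)) (a : List (Fin n)) : ℝ :=
  ⨆ p : ℝ × Fin n, load σ a p.1 p.2

/-- `a` lists one admissible machine for each task of `σ`. -/
def Feasible {n : ℕ} (σ : List (Task n)) (a : List (Fin n)) : Prop :=
  List.Forall₂ (fun t i => i ∈ t.adm) σ a

/-- The optimal offline cost. -/
noncomputable def opt {n : ℕ} (σ : List (Task n)) : ℝ :=
  sInf {c | ∃ a, Feasible σ a ∧ c = cost σ a}

/-- A deterministic online algorithm: the machine of a task `t` (whose weight, admissible machines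
and duration are known) is a function of `t` and of the list of the tasks that arrived before. -/
structure DetAlg (n : ℕ) where
  choose : List (Task n) → Task n → Fin n
  choose_mem : ∀ h t, t.adm.Nonempty → choose h t ∈ t.adm

/-- The machines chosen for the tasks of a list, when the tasks of `past` arrived before it. -/
def DetAlg.runFrom {n : ℕ} (A : DetAlg n) : List (Task n) → List (Task n) → List (Fin n)
  | _, [] => []
  | past, t :: ts => A.choose past t :: A.runFrom (past ++ [t]) ts

/-- The assignment produced by the algorithm on the sequence `σ`. -/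
def DetAlg.run {n : ℕ} (A : DetAlg n) (σ : List (Task n)) : List (Fin n) := A.runFrom [] σ

/-- A randomized online algorithm: a random deterministic online algorithm. -/
structure RandAlg (n : ℕ) where
  Ω : Type
  mΩ : MeasurableSpace Ω
  μ : @Measure Ω mΩ
  prob : IsProbabilityMeasure μ
  alg : Ω → DetAlg n
  meas : ∀ h t i, MeasurableSet[mΩ] {ω | (alg ω).choose h t = i}

/-- The expected cost of a randomized online algorithm on the sequence `σ`. -/
noncomputable def RandAlg.expectedCost {n : ℕ} (R : RandAlg n) (σ : List (Task n)) : ℝ :=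
  @integral R.Ω ℝ _ _ R.mΩ R.μ (fun ω => cost σ ((R.alg ω).run σ))

/-- `c(n)` for deterministic algorithms, `d` being the minimum possible duration: the infimum of
all `c` for which some algorithm has cost at most `c * opt` on every sequence. -/
noncomputable def detRatio (d : ℝ) (n : ℕ) : ℝ :=
  sInf {c | ∃ A : DetAlg n, ∀ σ, Legal d σ → cost σ (A.run σ) ≤ c * opt σ}

/-- `c(n)` for randomized algorithms. -/
noncomputable def randRatio (d : ℝ) (n : ℕ) : ℝ :=
  sInf {c | ∃ R : RandAlg n, ∀ σ, Legal d σ → R.expectedCost σ ≤ c * opt σ}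


/-! ### Basic facts -/

lemma load_nil {n : ℕ} (a : List (Fin n)) (s : ℝ) (i : Fin n) : load [] a s i = 0 := by
  simp [load]

lemma load_cons {n : ℕ} (t : Task n) (σ : List (Task n)) (c : Fin n) (a : List (Fin n))
    (s : ℝ) (i : Fin n) :
    load (t :: σ) (c :: a) s i =
      (if c = i ∧ t.arrival ≤ s ∧ s < t.arrival + t.duration then t.weight else 0)
        + load σ a s i := by
  simp [load]

lemma load_append {n : ℕ} (σ σ' : List (Task n)) (a a' : List (Fin n))
    (h : σ.length = a.length) (s : ℝ) (i : Fin n) :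
    load (σ ++ σ') (a ++ a') s i = load σ a s i + load σ' a' s i := by
  simp [load, List.zip_append h]

lemma load_nonneg {n : ℕ} (σ : List (Task n)) (hw : ∀ t ∈ σ, 0 ≤ t.weight) (a : List (Fin n))
    (s : ℝ) (i : Fin n) : 0 ≤ load σ a s i := by
  induction σ generalizing a with
  | nil => simp [load]
  | cons t σ ih =>
    cases a with
    | nil => simp [load]
    | cons c a =>
      rw [load_cons]
      have h1 := ih (fun u hu => hw u (List.mem_cons_of_mem _ hu)) a
      have h2 := hw t List.mem_cons_self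
      split_ifs <;> linarith

lemma load_le_sum {n : ℕ} (σ : List (Task n)) (hw : ∀ t ∈ σ, 0 ≤ t.weight) (a : List (Fin n))
    (s : ℝ) (i : Fin n) : load σ a s i ≤ (σ.map Task.weight).sum := by
  induction σ generalizing a with
  | nil => simp [load]
  | cons t σ ih =>
    have h2 := hw t List.mem_cons_self
    have h3 : ∀ u ∈ σ, 0 ≤ u.weight := fun u hu => hw u (List.mem_cons_of_mem _ hu)
    cases a with
    | nil =>
      have h4 : 0 ≤ ((t :: σ).map Task.weight).sum := by
        apply List.sum_nonneg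
        intro x hx
        obtain ⟨u, hu, rfl⟩ := List.mem_map.1 hx
        exact hw u hu
      simpa [load] using h4
    | cons c a =>
      rw [load_cons, List.map_cons, List.sum_cons]
      have h1 := ih h3 a
      split_ifs <;> linarith

lemma bdd_load {n : ℕ} (σ : List (Task n)) (hw : ∀ t ∈ σ, 0 ≤ t.weight) (a : List (Fin n)) :
    BddAbove (Set.range fun p : ℝ × Fin n => load σ a p.1 p.2) :=
  ⟨(σ.map Task.weight).sum, by
    rintro _ ⟨p, rfl⟩
    exact load_le_sum σ hw a p.1 p.2⟩

lemma load_le_cost {n : ℕ} (σ : List (Task n)) (hw : ∀ t ∈ σ, 0 ≤ t.weight) (a : List (Fin n))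
    (s : ℝ) (i : Fin n) : load σ a s i ≤ cost σ a :=
  le_ciSup (bdd_load σ hw a) (s, i)

lemma cost_le {n : ℕ} (hn : 1 ≤ n) (σ : List (Task n)) (a : List (Fin n)) (B : ℝ)
    (h : ∀ s i, load σ a s i ≤ B) : cost σ a ≤ B := by
  have : Nonempty (Fin n) := ⟨⟨0, hn⟩⟩
  exact ciSup_le fun p => h p.1 p.2

lemma cost_nonneg {n : ℕ} (hn : 1 ≤ n) (σ : List (Task n)) (hw : ∀ t ∈ σ, 0 ≤ t.weight)
    (a : List (Fin n)) : 0 ≤ cost σ a :=
  (load_nonneg σ hw a 0 ⟨0, hn⟩).trans (load_le_cost σ hw a 0 ⟨0, hn⟩)

lemma cost_le_sum {n : ℕ} (hn : 1 ≤ n) (σ : List (Task n)) (hw : ∀ t ∈ σ, 0 ≤ t.weight)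
    (a : List (Fin n)) : cost σ a ≤ (σ.map Task.weight).sum :=
  cost_le hn σ a _ fun s i => load_le_sum σ hw a s i

lemma finite_costs {n : ℕ} (σ : List (Task n)) :
    {c | ∃ a, Feasible σ a ∧ c = cost σ a}.Finite := by
  have h1 : {a : List (Fin n) | Feasible σ a}.Finite := by
    refine (List.finite_length_eq (Fin n) σ.length).subset ?_
    intro a ha
    exact (List.Forall₂.length_eq ha).symm
  refine (h1.image (cost σ)).subset ?_
  rintro c ⟨a, ha, rfl⟩
  exact ⟨a, ha, rfl⟩

lemma opt_le {n : ℕ} (σ : List (Task n)) (a : List (Fin n)) (ha : Feasible σ a) :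
    opt σ ≤ cost σ a :=
  csInf_le (finite_costs σ).bddBelow ⟨a, ha, rfl⟩

lemma exists_opt {n : ℕ} (σ : List (Task n)) (h : ∀ t ∈ σ, t.adm.Nonempty) :
    ∃ a, Feasible σ a ∧ opt σ = cost σ a := by
  have h1 : ∃ a, Feasible σ a := by
    induction σ with
    | nil => exact ⟨[], List.Forall₂.nil⟩
    | cons t σ ih =>
      obtain ⟨a, ha⟩ := ih fun u hu => h u (List.mem_cons_of_mem _ hu)
      obtain ⟨i, hi⟩ := h t List.mem_cons_self
      exact ⟨i :: a, List.Forall₂.cons hi ha⟩
  obtain ⟨a, ha⟩ := h1
  have h2 : ({c | ∃ a, Feasible σ a ∧ c = cost σ a} : Set ℝ).Nonempty := ⟨_, a, ha, rfl⟩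
  exact h2.csInf_mem (finite_costs σ)

lemma runFrom_feasible {n : ℕ} (A : DetAlg n) (past σ : List (Task n))
    (h : ∀ t ∈ σ, t.adm.Nonempty) : Feasible σ (A.runFrom past σ) := by
  induction σ generalizing past with
  | nil => exact List.Forall₂.nil
  | cons t σ ih =>
    exact List.Forall₂.cons (A.choose_mem _ _ (h t List.mem_cons_self))
      (ih _ fun u hu => h u (List.mem_cons_of_mem _ hu))

lemma runFrom_length {n : ℕ} (A : DetAlg n) (past σ : List (Task n)) :
    (A.runFrom past σ).length = σ.length := by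
  induction σ generalizing past with
  | nil => rfl
  | cons t σ ih => simp [DetAlg.runFrom, ih]

lemma runFrom_append {n : ℕ} (A : DetAlg n) (past σ τ : List (Task n)) :
    A.runFrom past (σ ++ τ) = A.runFrom past σ ++ A.runFrom (past ++ σ) τ := by
  induction σ generalizing past with
  | nil => simp [DetAlg.runFrom]
  | cons t σ ih => simp [DetAlg.runFrom, ih]


/-! ### The adversary -/

/-- The load produced by a fractional (expected) assignment `x`. -/
noncomputable def fl {n : ℕ} (x : List (Task n) → Task n → Fin n → ℝ) :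
    List (Task n) → List (Task n) → ℝ → Fin n → ℝ
  | _, [], _, _ => 0
  | past, t :: ts, s, i =>
    (if t.arrival ≤ s ∧ s < t.arrival + t.duration then t.weight * x past t i else 0)
      + fl x (past ++ [t]) ts s i

lemma fl_append {n : ℕ} (x : List (Task n) → Task n → Fin n → ℝ) (past σ τ : List (Task n))
    (s : ℝ) (i : Fin n) :
    fl x past (σ ++ τ) s i = fl x past σ s i + fl x (past ++ σ) τ s i := by
  induction σ generalizing past with
  | nil => simp [fl]
  | cons t σ ih =>
    rw [List.cons_append, fl, fl, ih]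
    simp [add_assoc]

lemma fl_nonneg {n : ℕ} (x : List (Task n) → Task n → Fin n → ℝ) (hx0 : ∀ h t i, 0 ≤ x h t i)
    (past σ : List (Task n)) (hw : ∀ t ∈ σ, 0 ≤ t.weight) (s : ℝ) (i : Fin n) :
    0 ≤ fl x past σ s i := by
  induction σ generalizing past with
  | nil => simp [fl]
  | cons t σ ih =>
    rw [fl]
    have h1 := ih (past ++ [t]) (fun u hu => hw u (List.mem_cons_of_mem _ hu))
    have h2 := mul_nonneg (hw t List.mem_cons_self) (hx0 past t i)
    split_ifs <;> linarith

/-- A segment of the adversary's sequence (with the offline machine of every task). -/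
def Seg {n : ℕ} (d : ℝ) (F : Finset (Fin n)) (T T' e : ℝ) (Q : List (Task n × Fin n)) : Prop :=
  (∀ q ∈ Q, q.1.weight = 1 ∧ q.2 ∈ q.1.adm ∧ q.2 ∈ F ∧ d ≤ q.1.duration ∧ q.1.duration ≤ e ∧
    T ≤ q.1.arrival ∧ q.1.arrival + 1 ≤ T') ∧
  Q.Pairwise (fun p q => p.1.arrival < q.1.arrival ∧
    (p.2 = q.2 → p.1.arrival + p.1.duration ≤ q.1.arrival))

/-- The machines of `F` are free (offline) from time `T` on. -/
def Free {n : ℕ} (P : List (Task n × Fin n)) (F : Finset (Fin n)) (T : ℝ) : Prop :=
  ∀ p ∈ P, p.2 ∈ F → p.1.arrival + p.1.duration ≤ T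

lemma Seg.append {n : ℕ} {d T T₁ T₂ e₁ e₂ e : ℝ} {F₁ F₂ F : Finset (Fin n)}
    {Q Q' : List (Task n × Fin n)} (h : Seg d F₁ T T₁ e₁ Q) (h' : Seg d F₂ T₁ T₂ e₂ Q')
    (hf : Free Q F₂ T₁) (h01 : T ≤ T₁) (h12 : T₁ ≤ T₂) (hF₁ : F₁ ⊆ F) (hF₂ : F₂ ⊆ F)
    (he₁ : e₁ ≤ e) (he₂ : e₂ ≤ e) : Seg d F T T₂ e (Q ++ Q') := by
  refine ⟨?_, ?_⟩
  · intro q hq
    rcases List.mem_append.1 hq with hq | hq
    · obtain ⟨a1, a2, a3, a4, a5, a6, a7⟩ := h.1 q hq
      exact ⟨a1, a2, hF₁ a3, a4, a5.trans he₁, a6, a7.trans h12⟩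
    · obtain ⟨a1, a2, a3, a4, a5, a6, a7⟩ := h'.1 q hq
      exact ⟨a1, a2, hF₂ a3, a4, a5.trans he₂, h01.trans a6, a7⟩
  · rw [List.pairwise_append]
    refine ⟨h.2, h'.2, ?_⟩
    intro p hp q hq
    obtain ⟨-, -, -, -, -, -, a7⟩ := h.1 p hp
    obtain ⟨-, -, b3, -, -, b6, -⟩ := h'.1 q hq
    refine ⟨by linarith, fun hpq => ?_⟩
    exact (hf p hp (hpq ▸ b3)).trans b6

lemma Seg.single {n : ℕ} {d T e e' : ℝ} {F : Finset (Fin n)} {y z m : Fin n}
    (hm : m ∈ ({y, z} : Finset (Fin n))) (hmF : m ∈ F) (hd : d ≤ e') (he : e' ≤ e) :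
    Seg d F T (T + 1) e [((⟨1, {y, z}, T, e'⟩ : Task n), m)] := by
  refine ⟨?_, List.pairwise_singleton _ _⟩
  intro q hq
  rw [List.mem_singleton] at hq
  subst hq
  exact ⟨rfl, hm, hmF, hd, he, le_refl _, le_refl _⟩

lemma Seg.weight {n : ℕ} {d T T' e : ℝ} {F : Finset (Fin n)} {Q : List (Task n × Fin n)}
    (h : Seg d F T T' e Q) : ∀ t ∈ Q.map Prod.fst, 0 ≤ t.weight := by
  intro t ht
  obtain ⟨q, hq, rfl⟩ := List.mem_map.1 ht
  rw [(h.1 q hq).1]
  exact zero_le_one

lemma Free.append {n : ℕ} {P Q : List (Task n × Fin n)} {F : Finset (Fin n)} {T : ℝ}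
    (h : Free P F T) (h' : Free Q F T) : Free (P ++ Q) F T := by
  intro p hp hF
  rcases List.mem_append.1 hp with hp | hp
  · exact h p hp hF
  · exact h' p hp hF

lemma Free.mono {n : ℕ} {P : List (Task n × Fin n)} {F F' : Finset (Fin n)} {T T' : ℝ}
    (h : Free P F T) (hF : F' ⊆ F) (hT : T ≤ T') : Free P F' T' :=
  fun p hp hp' => (h p hp (hF hp')).trans hT

/-- The duration scales. -/
noncomputable def scale (U : ℝ) (k : ℕ) (i : ℕ) : ℝ := if i = 0 then 0 else U * (4 * k) ^ i

lemma scale_zero (U : ℝ) (k : ℕ) : scale U k 0 = 0 := by simp [scale]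

lemma scale_nonneg {U : ℝ} (hU : 1 ≤ U) (k i : ℕ) : 0 ≤ scale U k i := by
  rw [scale]
  split_ifs
  · exact le_refl _
  · positivity

lemma scale_succ {U : ℝ} (hU : 1 ≤ U) {k : ℕ} (hk : 1 ≤ k) (i : ℕ) :
    (k : ℝ) * (2 * scale U k i + 1) < scale U k (i + 1) := by
  have hk' : (1 : ℝ) ≤ k := by exact_mod_cast hk
  rcases Nat.eq_zero_or_pos i with rfl | hi
  · have h1 : scale U k (0 + 1) = U * (4 * k) := by simp [scale]
    rw [h1, scale_zero]
    nlinarith
  · have h0 : i ≠ 0 := by omega
    have h1 : scale U k i = U * (4 * k) ^ i := by simp [scale, h0]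
    have h2 : scale U k (i + 1) = U * (4 * k) ^ i * (4 * k) := by
      simp [scale, pow_succ, mul_assoc]
    have h3 : (1 : ℝ) ≤ (4 * k) ^ i := one_le_pow₀ (by linarith)
    have h4 : 1 ≤ scale U k i := by
      rw [h1]
      nlinarith
    rw [h2, ← h1]
    nlinarith

lemma scale_succ_ge {U : ℝ} (hU : 1 ≤ U) {k : ℕ} (hk : 1 ≤ k) (i : ℕ) :
    U ≤ scale U k (i + 1) ∧ (k : ℝ) + 2 ≤ scale U k (i + 1) := by
  have hk' : (1 : ℝ) ≤ k := by exact_mod_cast hk
  have h2 : scale U k (i + 1) = U * ((4 * k) ^ i * (4 * k)) := by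
    simp [scale, pow_succ]
  have h3 : (1 : ℝ) ≤ (4 * k) ^ i := one_le_pow₀ (by linarith)
  have h4 : (4 * k : ℝ) ≤ (4 * k) ^ i * (4 * k) := by nlinarith
  rw [h2]
  constructor
  · nlinarith
  · nlinarith


lemma Seg.mono {n : ℕ} {d T T' T'' e : ℝ} {F : Finset (Fin n)} {Q : List (Task n × Fin n)}
    (h : Seg d F T T' e Q) (hT : T' ≤ T'') : Seg d F T T'' e Q := by
  refine ⟨fun q hq => ?_, h.2⟩
  obtain ⟨a1, a2, a3, a4, a5, a6, a7⟩ := h.1 q hq
  exact ⟨a1, a2, a3, a4, a5, a6, a7.trans hT⟩

section Adversary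

variable {n : ℕ} (x : List (Task n) → Task n → Fin n → ℝ) (δ : ℝ)

/-- The outcome of the `i`-th procedure of the adversary: a machine with load `δ * k`, or a machine
of `F`, free offline, with load at least `δ * i`. -/
def Outcome (k : ℕ) (d U : ℝ) (P : List (Task n × Fin n)) (T : ℝ) (F : Finset (Fin n))
    (i : ℕ) : Prop :=
  ∃ (Q : List (Task n × Fin n)) (T' : ℝ), T ≤ T' ∧ T' ≤ T + scale U k i ∧
    Seg d F T T' (scale U k i) Q ∧
    ((∃ s m, δ * k ≤ fl x (P.map Prod.fst) (Q.map Prod.fst) s m) ∨
      ∃ z ∈ F, Free (P ++ Q) {z} T' ∧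
        ∀ s, T' ≤ s → s ≤ T' + (k - i) → δ * i ≤ fl x (P.map Prod.fst) (Q.map Prod.fst) s z)

/-- The state of the inner loop: the pile on the machine `y` has load `δ * j`. -/
def LoopState (k : ℕ) (d U : ℝ) (P : List (Task n × Fin n)) (T : ℝ) (F : Finset (Fin n))
    (i : ℕ) (y : Fin n) (j : ℕ) : Prop :=
  ∃ (Q : List (Task n × Fin n)) (T' : ℝ) (B : Finset (Fin n)),
    T ≤ T' ∧ T' ≤ T + j * (2 * scale U k i + 1) ∧
    Seg d F T T' (scale U k (i + 1)) Q ∧ y ∉ B ∧ B.card ≤ j ∧ Free (P ++ Q) (F \ B) T' ∧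
    ∀ s, T' ≤ s → s < T + scale U k (i + 1) →
      δ * j ≤ fl x (P.map Prod.fst) (Q.map Prod.fst) s y

variable {x δ}

lemma loop_step (hx0 : ∀ h t i, 0 ≤ x h t i)
    (hx : ∀ h t a b, a ≠ b → t.adm = {a, b} → δ ≤ x h t a ∨ δ ≤ x h t b)
    {k : ℕ} (hk : 1 ≤ k) {d U : ℝ} (hU : 1 ≤ U) (hdU : d ≤ U) (i : ℕ) (hik : i < k)
    (ih : ∀ (P : List (Task n × Fin n)) (T : ℝ) (F : Finset (Fin n)), Free P F T →
      1 + i * k ≤ F.card → Outcome x δ k d U P T F i)
    (P : List (Task n × Fin n)) (T : ℝ) (F : Finset (Fin n)) (hcard : 1 + (i + 1) * k ≤ F.card)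
    (y : Fin n) (hy : y ∈ F) (j : ℕ) (hj : j < k)
    (hL : LoopState x δ k d U P T F i y j) :
    Outcome x δ k d U P T F (i + 1) ∨ LoopState x δ k d U P T F i y (j + 1) := by
  obtain ⟨Q, T₁, B, hT1, hT2, hSeg, hyB, hB, hfree, hload⟩ := hL
  have hE0 := scale_nonneg hU k i
  have hE1 := scale_succ hU hk i
  obtain ⟨hE2, hE3⟩ := scale_succ_ge hU hk i
  have hkR : (1 : ℝ) ≤ k := by exact_mod_cast hk
  have hjR : (j : ℝ) + 1 ≤ k := by exact_mod_cast hj
  have hiR : (i : ℝ) + 1 ≤ k := by exact_mod_cast hik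
  have hj0 : (0 : ℝ) ≤ j := Nat.cast_nonneg j
  have hbound : T + (j * (2 * scale U k i + 1)) + (2 * scale U k i + 1) <
      T + scale U k (i + 1) := by
    have : ((j : ℝ) + 1) * (2 * scale U k i + 1) ≤ k * (2 * scale U k i + 1) :=
      mul_le_mul_of_nonneg_right hjR (by linarith)
    linarith
  have hEle : scale U k i ≤ scale U k (i + 1) := by
    have : (1 : ℝ) * (2 * scale U k i + 1) ≤ k * (2 * scale U k i + 1) :=
      mul_le_mul_of_nonneg_right hkR (by linarith)
    linarith
  -- the free machines for the inner procedure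
  set F' := (F \ B).erase y with hF'
  have hF'F : F' ⊆ F := (Finset.erase_subset _ _).trans Finset.sdiff_subset
  have hF'B : F' ⊆ F \ B := Finset.erase_subset _ _
  have hcard' : 1 + i * k ≤ F'.card := by
    have h1 : F.card ≤ (F \ B).card + B.card := by
      exact Finset.card_le_card_sdiff_add_card
    have h2 : (F \ B).card ≤ F'.card + 1 := by
      have := Finset.pred_card_le_card_erase (s := F \ B) (a := y)
      rw [← hF'] at this
      omega
    have h3 : (i + 1) * k = i * k + k := by ring
    omega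
  have hyF' : y ∉ F' := Finset.notMem_erase _ _
  obtain ⟨Q', T₂, hT12, hT2', hSeg', hout⟩ :=
    ih (P ++ Q) T₁ F' (hfree.mono hF'B le_rfl) hcard'
  have hfreeQ : Free Q F' T₁ := fun p hp hpF =>
    hfree p (List.mem_append_right _ hp) (hF'B hpF)
  have hSegA : Seg d F T T₂ (scale U k (i + 1)) (Q ++ Q') :=
    Seg.append hSeg hSeg' hfreeQ hT1 hT12 (Finset.Subset.refl _) hF'F le_rfl hEle
  have hmap : (P ++ Q).map Prod.fst = P.map Prod.fst ++ Q.map Prod.fst := List.map_append
  rcases hout with ⟨s, m, hs⟩ | ⟨z, hzF', hzfree, hz⟩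
  · -- the inner procedure has already won
    left
    refine ⟨Q ++ Q', T₂, hT1.trans hT12, by linarith, hSegA, Or.inl ⟨s, m, ?_⟩⟩
    rw [List.map_append, fl_append, ← hmap]
    have := fl_nonneg x hx0 (P.map Prod.fst) (Q.map Prod.fst) hSeg.weight s m
    linarith
  · have hyz : y ≠ z := fun h => hyF' (h ▸ hzF')
    have hzF : z ∈ F := hF'F hzF'
    set past := ((P ++ (Q ++ Q')).map Prod.fst) with hpast
    set t : Task n := ⟨1, {y, z}, T₂, scale U k (i + 1)⟩ with ht
    have hbase : ∀ s m, fl x (P.map Prod.fst) ((Q ++ Q').map Prod.fst) s m =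
        fl x (P.map Prod.fst) (Q.map Prod.fst) s m +
          fl x ((P ++ Q).map Prod.fst) (Q'.map Prod.fst) s m := by
      intro s m
      rw [List.map_append, fl_append, ← hmap]
    have hfl : ∀ (w : Fin n) s m, fl x (P.map Prod.fst) ((Q ++ Q' ++ [(t, w)]).map Prod.fst) s m =
        fl x (P.map Prod.fst) ((Q ++ Q').map Prod.fst) s m +
          (if T₂ ≤ s ∧ s < T₂ + scale U k (i + 1) then x past t m else 0) := by
      intro w s m
      rw [List.map_append (l₁ := Q ++ Q'), fl_append]
      congr 1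
      simp [fl, hpast, ht]
    have hyfree2 : Free (Q ++ Q') {y} T₂ := by
      apply Free.append
      · intro p hp hpy
        have hpy' : p.2 = y := Finset.mem_singleton.1 hpy
        refine (hfree p (List.mem_append_right _ hp) ?_).trans hT12
        rw [hpy', Finset.mem_sdiff]
        exact ⟨hy, hyB⟩
      · intro p hp hpy
        have hpy' : p.2 = y := Finset.mem_singleton.1 hpy
        exact absurd (hpy' ▸ (hSeg'.1 p hp).2.2.1) hyF'
    rcases hx past t y z hyz rfl with hxy | hxz
    · -- the task goes to the pile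
      right
      have hzfree2 : Free (Q ++ Q') {z} T₂ := by
        intro p hp hpz
        exact hzfree p (by simp only [List.mem_append] at hp ⊢; tauto) hpz
      have h1 : Seg d F T (T₂ + 1) (scale U k (i + 1)) (Q ++ Q' ++ [(t, z)]) :=
        Seg.append hSegA (Seg.single (e := scale U k (i + 1)) (F := {z}) (by simp)
          (Finset.mem_singleton_self z) (hdU.trans hE2) le_rfl) hzfree2 (hT1.trans hT12)
          (by linarith) (Finset.Subset.refl _) (Finset.singleton_subset_iff.2 hzF) le_rfl le_rfl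
      refine ⟨Q ++ Q' ++ [(t, z)], T₂ + 1 + scale U k i, insert z B, by linarith, ?_,
        h1.mono (by linarith), by simp [hyB, hyz],
        (Finset.card_insert_le _ _).trans (by omega), ?_, ?_⟩
      · push_cast
        linarith
      · intro p hp hpF
        rw [Finset.mem_sdiff, Finset.mem_insert, not_or] at hpF
        obtain ⟨hpF, hpz, hpB⟩ := hpF
        have hp' : p ∈ P ++ Q ∨ p ∈ Q' ∨ p = (t, z) := by
          simp only [List.mem_append, List.mem_singleton] at hp ⊢
          tauto
        rcases hp' with hp' | hp' | hp'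
        · have := hfree p hp' (Finset.mem_sdiff.2 ⟨hpF, hpB⟩)
          linarith
        · obtain ⟨-, -, -, -, a5, -, a7⟩ := hSeg'.1 p hp'
          linarith
        · exact absurd (by rw [hp']) hpz
      · intro s hs1 hs2
        rw [hfl z s y, if_pos ⟨by linarith, by linarith⟩, hbase]
        have h2 := hload s (by linarith) hs2
        have h3 := fl_nonneg x hx0 ((P ++ Q).map Prod.fst) (Q'.map Prod.fst) hSeg'.weight s y
        push_cast
        linarith
    · -- the task goes to `z`
      left
      have h1 : Seg d F T (T₂ + 1) (scale U k (i + 1)) (Q ++ Q' ++ [(t, y)]) :=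
        Seg.append hSegA (Seg.single (e := scale U k (i + 1)) (F := {y}) (by simp)
          (Finset.mem_singleton_self y) (hdU.trans hE2) le_rfl) hyfree2 (hT1.trans hT12)
          (by linarith) (Finset.Subset.refl _) (Finset.singleton_subset_iff.2 hy) le_rfl le_rfl
      refine ⟨Q ++ Q' ++ [(t, y)], T₂ + 1, by linarith, by linarith, h1,
        Or.inr ⟨z, hzF, ?_, ?_⟩⟩
      · intro p hp hpz
        have hp' : p ∈ (P ++ Q) ++ Q' ∨ p = (t, y) := by
          simp only [List.mem_append, List.mem_singleton] at hp ⊢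
          tauto
        rcases hp' with hp' | hp'
        · have := hzfree p hp' hpz
          linarith
        · have hpz' : p.2 = z := Finset.mem_singleton.1 hpz
          rw [hp'] at hpz'
          exact absurd hpz' hyz
      · intro s hs1 hs2
        have hi1 : ((i + 1 : ℕ) : ℝ) = (i : ℝ) + 1 := by push_cast; ring
        rw [hi1] at hs2 ⊢
        rw [hfl y s z, if_pos ⟨by linarith, by linarith⟩, hbase]
        have h2 := hz s (by linarith) (by linarith)
        have h3 := fl_nonneg x hx0 (P.map Prod.fst) (Q.map Prod.fst) hSeg.weight s z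
        linarith

lemma outcome (hx0 : ∀ h t i, 0 ≤ x h t i)
    (hx : ∀ h t a b, a ≠ b → t.adm = {a, b} → δ ≤ x h t a ∨ δ ≤ x h t b)
    {k : ℕ} (hk : 1 ≤ k) {d U : ℝ} (hU : 1 ≤ U) (hdU : d ≤ U) (i : ℕ) (hik : i ≤ k) :
    ∀ (P : List (Task n × Fin n)) (T : ℝ) (F : Finset (Fin n)), Free P F T →
      1 + i * k ≤ F.card → Outcome x δ k d U P T F i := by
  induction i with
  | zero =>
    intro P T F hF hcard
    obtain ⟨z, hz⟩ : F.Nonempty := Finset.card_pos.1 (by omega)
    refine ⟨[], T, le_rfl, by simp [scale_zero], ⟨by simp, List.Pairwise.nil⟩,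
      Or.inr ⟨z, hz, ?_, ?_⟩⟩
    · rw [List.append_nil]
      exact hF.mono (Finset.singleton_subset_iff.2 hz) le_rfl
    · intro s _ _
      simp [fl]
  | succ i ih =>
    intro P T F hF hcard
    obtain ⟨y, hy⟩ : F.Nonempty := Finset.card_pos.1 (by omega)
    have key : ∀ j, j ≤ k → Outcome x δ k d U P T F (i + 1) ∨ LoopState x δ k d U P T F i y j := by
      intro j
      induction j with
      | zero =>
        intro _
        right
        refine ⟨[], T, ∅, le_rfl, by simp, ⟨by simp, List.Pairwise.nil⟩, by simp, by simp, ?_, ?_⟩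
        · simpa using hF
        · intro s _ _
          simp [fl]
      | succ j ihj =>
        intro hj
        rcases ihj (by omega) with h | h
        · exact Or.inl h
        · exact loop_step hx0 hx hk hU hdU i (by omega) (ih (by omega)) P T F hcard y hy j
            (by omega) h
    rcases key k le_rfl with h | h
    · exact h
    · obtain ⟨Q, T₁, B, hT1, hT2, hSeg, hyB, hB, hfree, hload⟩ := h
      have hE1 := scale_succ hU hk i
      refine ⟨Q, T₁, hT1, by linarith, hSeg, Or.inl ⟨T₁, y, ?_⟩⟩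
      exact hload T₁ le_rfl (by linarith)

end Adversary


lemma load_eq_zero {n : ℕ} (Q : List (Task n × Fin n)) (s : ℝ) (m : Fin n)
    (h : ∀ p ∈ Q, ¬ (p.2 = m ∧ p.1.arrival ≤ s ∧ s < p.1.arrival + p.1.duration)) :
    load (Q.map Prod.fst) (Q.map Prod.snd) s m = 0 := by
  induction Q with
  | nil => simp [load]
  | cons q Q ih =>
    rw [List.map_cons, List.map_cons, load_cons, if_neg (h q List.mem_cons_self),
      ih fun p hp => h p (List.mem_cons_of_mem _ hp), add_zero]

lemma load_le_one {n : ℕ} (Q : List (Task n × Fin n)) (s : ℝ) (m : Fin n)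
    (hw : ∀ p ∈ Q, p.1.weight = 1)
    (h : Q.Pairwise (fun p q => p.2 = q.2 → p.1.arrival + p.1.duration ≤ q.1.arrival)) :
    load (Q.map Prod.fst) (Q.map Prod.snd) s m ≤ 1 := by
  induction Q with
  | nil => simp [load]
  | cons q Q ih =>
    rw [List.pairwise_cons] at h
    have ih' := ih (fun p hp => hw p (List.mem_cons_of_mem _ hp)) h.2
    rw [List.map_cons, List.map_cons, load_cons]
    split_ifs with hq
    · rw [load_eq_zero Q s m, hw q List.mem_cons_self, add_zero]
      rintro p hp ⟨h1, h2, h3⟩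
      have := h.1 p hp (hq.1.trans h1.symm)
      linarith [hq.2.2]
    · linarith

lemma adversary {n : ℕ} {x : List (Task n) → Task n → Fin n → ℝ} {δ : ℝ}
    (hx0 : ∀ h t i, 0 ≤ x h t i)
    (hx : ∀ h t a b, a ≠ b → t.adm = {a, b} → δ ≤ x h t a ∨ δ ≤ x h t b)
    {k : ℕ} (hk : 1 ≤ k) (hkn : k * k + 1 ≤ n) (d : ℝ) :
    ∃ σ : List (Task n), Legal d σ ∧ opt σ ≤ 1 ∧ ∃ s m, δ * k ≤ fl x [] σ s m := by
  obtain ⟨Q, T', hT, -, hSeg, hout⟩ := outcome hx0 hx hk (d := d) (le_max_left 1 d)
    (le_max_right 1 d) k le_rfl [] 0 Finset.univ (by intro p hp; simp at hp)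
    (by rw [Finset.card_univ, Fintype.card_fin]; omega)
  refine ⟨Q.map Prod.fst, ⟨?_, ?_⟩, ?_, ?_⟩
  · intro t ht
    obtain ⟨q, hq, rfl⟩ := List.mem_map.1 ht
    obtain ⟨a1, a2, -, a4, -⟩ := hSeg.1 q hq
    exact ⟨by rw [a1]; exact one_pos, ⟨_, a2⟩, a4⟩
  · rw [List.pairwise_map]
    exact hSeg.2.imp fun h => h.1.le
  · have hn : 1 ≤ n := by omega
    have hfeas : Feasible (Q.map Prod.fst) (Q.map Prod.snd) := by
      have : ∀ q ∈ Q, q.2 ∈ q.1.adm := fun q hq => (hSeg.1 q hq).2.1
      clear hSeg hout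
      induction Q with
      | nil => exact List.Forall₂.nil
      | cons q Q ih =>
        exact List.Forall₂.cons (this q List.mem_cons_self)
          (ih fun p hp => this p (List.mem_cons_of_mem _ hp))
    refine (opt_le _ _ hfeas).trans (cost_le hn _ _ _ fun s m => ?_)
    exact load_le_one Q s m (fun p hp => (hSeg.1 p hp).1) (hSeg.2.imp fun h => h.2)
  · rcases hout with h | ⟨z, -, -, hz⟩
    · simpa using h
    · refine ⟨T', z, ?_⟩
      simpa using hz T' le_rfl (by simp)

/-! ### Deterministic algorithms -/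

lemma fl_det {n : ℕ} (A : DetAlg n) (past σ : List (Task n)) (s : ℝ) (i : Fin n) :
    fl (fun h t j => if A.choose h t = j then 1 else 0) past σ s i =
      load σ (A.runFrom past σ) s i := by
  induction σ generalizing past with
  | nil => simp [fl, load]
  | cons t σ ih =>
    rw [fl, DetAlg.runFrom, load_cons, ih]
    congr 1
    by_cases h1 : A.choose past t = i <;>
      by_cases h2 : t.arrival ≤ s ∧ s < t.arrival + t.duration <;> simp [h1, h2]

lemma Legal.weight {n : ℕ} {d : ℝ} {σ : List (Task n)} (h : Legal d σ) :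
    ∀ t ∈ σ, 0 ≤ t.weight := fun t ht => (h.1 t ht).1.le

lemma opt_nonneg {n : ℕ} (hn : 1 ≤ n) {d : ℝ} {σ : List (Task n)} (h : Legal d σ) :
    0 ≤ opt σ := by
  obtain ⟨a, -, ha⟩ := exists_opt σ fun t ht => (h.1 t ht).2.1
  rw [ha]
  exact cost_nonneg hn σ h.weight a

lemma ratio_bound {c o v : ℝ} (ho : 0 ≤ o) (ho1 : o ≤ 1) (hv : 0 < v) (h : v ≤ c * o) :
    v ≤ c := by
  by_contra hc
  rcases le_or_gt c 0 with h0 | h0
  · have := mul_nonpos_of_nonpos_of_nonneg h0 ho
    linarith
  · have := mul_le_mul_of_nonneg_left ho1 h0.le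
    linarith

lemma det_lower {n : ℕ} (A : DetAlg n) (d c : ℝ)
    (hA : ∀ σ, Legal d σ → cost σ (A.run σ) ≤ c * opt σ) {k : ℕ} (hk : 1 ≤ k)
    (hkn : k * k + 1 ≤ n) : (k : ℝ) ≤ c := by
  obtain ⟨σ, hσ, hopt, s, m, hs⟩ := adversary (n := n)
    (x := fun h t j => if A.choose h t = j then 1 else 0) (δ := 1)
    (by intro h t i; split_ifs <;> norm_num)
    (by
      intro h t a b hab hadm
      have := A.choose_mem h t (by rw [hadm]; simp)
      rw [hadm, Finset.mem_insert, Finset.mem_singleton] at this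
      rcases this with h1 | h1
      · left; simp [h1]
      · right; simp [h1]) hk hkn d
  rw [fl_det, one_mul] at hs
  have h1 := load_le_cost σ hσ.weight (A.runFrom [] σ) s m
  have h2 := hA σ hσ
  have h3 := opt_nonneg (by omega) hσ
  have hk' : (1 : ℝ) ≤ k := by exact_mod_cast hk
  exact ratio_bound h3 hopt (by linarith) (hs.trans (h1.trans h2))

/-! ### Randomized algorithms -/

section Randomized

variable {n : ℕ} {Ω : Type} [MeasurableSpace Ω] (μ : Measure Ω) [IsProbabilityMeasure μ]
  (alg : Ω → DetAlg n) (meas : ∀ h t i, MeasurableSet {ω | (alg ω).choose h t = i})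

include meas

omit [IsProbabilityMeasure μ] in
lemma measurable_run (past σ : List (Task n)) (a : List (Fin n)) :
    MeasurableSet {ω | (alg ω).runFrom past σ = a} := by
  induction σ generalizing past a with
  | nil => simp [DetAlg.runFrom]
  | cons t σ ih =>
    cases a with
    | nil => simp [DetAlg.runFrom]
    | cons c a =>
      have : {ω | (alg ω).runFrom past (t :: σ) = c :: a} =
          {ω | (alg ω).choose past t = c} ∩ {ω | (alg ω).runFrom (past ++ [t]) σ = a} := by
        ext ω
        simp [DetAlg.runFrom]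
      rw [this]
      exact (meas past t c).inter (ih _ _)

lemma measurable_of_run (past σ : List (Task n)) (f : List (Fin n) → ℝ) :
    Measurable fun ω => f ((alg ω).runFrom past σ) := by
  let _ : MeasurableSpace (List (Fin n)) := ⊤
  have h1 : Measurable fun ω => (alg ω).runFrom past σ :=
    measurable_to_countable' fun a => measurable_run alg meas past σ a
  exact (measurable_from_top (f := f)).comp h1

lemma integrable_of_run (past σ : List (Task n))
    (f : List (Fin n) → ℝ) (C : ℝ) (hC : ∀ a, |f a| ≤ C) :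
    Integrable (fun ω => f ((alg ω).runFrom past σ)) μ :=
  Integrable.of_bound (measurable_of_run alg meas past σ f).aestronglyMeasurable C
    (Filter.Eventually.of_forall fun _ => hC _)

lemma integrable_load (past σ : List (Task n)) (hw : ∀ t ∈ σ, 0 ≤ t.weight) (s : ℝ) (i : Fin n) :
    Integrable (fun ω => load σ ((alg ω).runFrom past σ) s i) μ := by
  refine integrable_of_run μ alg meas past σ (fun a => load σ a s i)
    (σ.map Task.weight).sum fun a => ?_
  rw [abs_of_nonneg (load_nonneg σ hw a s i)]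
  exact load_le_sum σ hw a s i

lemma integrable_cost (hn : 1 ≤ n) (past σ : List (Task n)) (hw : ∀ t ∈ σ, 0 ≤ t.weight) :
    Integrable (fun ω => cost σ ((alg ω).runFrom past σ)) μ := by
  refine integrable_of_run μ alg meas past σ (fun a => cost σ a)
    (σ.map Task.weight).sum fun a => ?_
  rw [abs_of_nonneg (cost_nonneg hn σ hw a)]
  exact cost_le_sum hn σ hw a

lemma integral_load (past σ : List (Task n)) (hw : ∀ t ∈ σ, 0 ≤ t.weight) (s : ℝ) (i : Fin n) :
    ∫ ω, load σ ((alg ω).runFrom past σ) s i ∂μ =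
      fl (fun h t j => μ.real {ω | (alg ω).choose h t = j}) past σ s i := by
  induction σ generalizing past with
  | nil => simp [fl, load]
  | cons t σ ih =>
    have hw' : ∀ u ∈ σ, 0 ≤ u.weight := fun u hu => hw u (List.mem_cons_of_mem _ hu)
    rw [fl, ← ih _ hw']
    simp only [DetAlg.runFrom, load_cons]
    by_cases h2 : t.arrival ≤ s ∧ s < t.arrival + t.duration
    · rw [if_pos h2]
      have h3 : (fun ω => if (alg ω).choose past t = i ∧ t.arrival ≤ s ∧
          s < t.arrival + t.duration then t.weight else 0) =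
          Set.indicator {ω | (alg ω).choose past t = i} (fun _ => t.weight) := by
        funext ω
        by_cases h4 : (alg ω).choose past t = i <;> simp [h2, h4]
      have h5 : Integrable (fun ω => if (alg ω).choose past t = i ∧ t.arrival ≤ s ∧
          s < t.arrival + t.duration then t.weight else 0) μ := by
        rw [h3]
        exact (integrable_const _).indicator (meas past t i)
      rw [integral_add h5 (integrable_load μ alg meas _ σ hw' s i), h3,
        integral_indicator_const _ (meas past t i), smul_eq_mul, mul_comm]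
    · rw [if_neg h2, zero_add]
      congr 1
      funext ω
      have h4 : ¬ ((alg ω).choose past t = i ∧ t.arrival ≤ s ∧ s < t.arrival + t.duration) :=
        fun h => h2 h.2
      rw [if_neg h4, zero_add]

lemma fl_le_integral_cost (hn : 1 ≤ n) (σ : List (Task n)) (hw : ∀ t ∈ σ, 0 ≤ t.weight)
    (s : ℝ) (i : Fin n) :
    fl (fun h t j => μ.real {ω | (alg ω).choose h t = j}) [] σ s i ≤
      ∫ ω, cost σ ((alg ω).run σ) ∂μ := by
  rw [← integral_load μ alg meas [] σ hw s i]
  exact integral_mono (integrable_load μ alg meas [] σ hw s i)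
    (integrable_cost μ alg meas hn [] σ hw) fun ω => load_le_cost σ hw _ s i

lemma opt_le_integral_cost (hn : 1 ≤ n) {d : ℝ} (σ : List (Task n)) (hσ : Legal d σ) :
    opt σ ≤ ∫ ω, cost σ ((alg ω).run σ) ∂μ := by
  have h1 : ∫ _ : Ω, opt σ ∂μ = opt σ := by simp
  rw [← h1]
  exact integral_mono (integrable_const _) (integrable_cost μ alg meas hn [] σ hσ.weight)
    fun ω => opt_le σ _ (runFrom_feasible _ _ _ fun t ht => (hσ.1 t ht).2.1)

lemma rand_lower_aux (d c : ℝ)
    (hA : ∀ σ, Legal d σ → ∫ ω, cost σ ((alg ω).run σ) ∂μ ≤ c * opt σ) {k : ℕ} (hk : 1 ≤ k)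
    (hkn : k * k + 1 ≤ n) : (k : ℝ) / 2 ≤ c := by
  obtain ⟨σ, hσ, hopt, s, m, hs⟩ := adversary (n := n)
    (x := fun h t j => μ.real {ω | (alg ω).choose h t = j}) (δ := 1 / 2)
    (fun h t i => measureReal_nonneg)
    (by
      intro h t a b hab hadm
      by_contra hcon
      rw [not_or, not_le, not_le] at hcon
      have h1 : {ω | (alg ω).choose h t = a} ∪ {ω | (alg ω).choose h t = b} = Set.univ := by
        ext ω
        have := (alg ω).choose_mem h t (by rw [hadm]; simp)
        rw [hadm, Finset.mem_insert, Finset.mem_singleton] at this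
        simpa using this
      have h2 := measureReal_union_le (μ := μ) {ω | (alg ω).choose h t = a}
        {ω | (alg ω).choose h t = b}
      rw [h1, probReal_univ] at h2
      linarith [hcon.1, hcon.2]) hk hkn d
  have hn : 1 ≤ n := by omega
  have h1 := fl_le_integral_cost μ alg meas hn σ hσ.weight s m
  have h2 := hA σ hσ
  have h3 := opt_nonneg hn hσ
  have hk' : (1 : ℝ) ≤ k := by exact_mod_cast hk
  exact ratio_bound h3 hopt (by linarith) (by linarith)

omit meas in
lemma one_le_opt_single (hn : 1 ≤ n) (d : ℝ) (hd : 0 < d) :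
    1 ≤ opt [(⟨1, Finset.univ, 0, d⟩ : Task n)] := by
  have : Nonempty (Fin n) := ⟨⟨0, hn⟩⟩
  obtain ⟨a, ha, h⟩ := exists_opt [(⟨1, Finset.univ, 0, d⟩ : Task n)] (by
    intro t ht
    rw [List.mem_singleton] at ht
    subst ht
    exact Finset.univ_nonempty)
  rw [h]
  cases ha with
  | cons h1 h2 =>
    rename_i c a
    have h3 := load_le_cost [(⟨1, Finset.univ, 0, d⟩ : Task n)] (by
      intro t ht
      rw [List.mem_singleton] at ht
      subst ht
      exact zero_le_one) (c :: a) 0 c
    rw [load_cons, load_nil] at h3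
    simpa [hd] using h3

lemma rand_ge_one (hn : 1 ≤ n) (d c : ℝ) (hd : 0 < d)
    (hA : ∀ σ, Legal d σ → ∫ ω, cost σ ((alg ω).run σ) ∂μ ≤ c * opt σ) : 1 ≤ c := by
  have : Nonempty (Fin n) := ⟨⟨0, hn⟩⟩
  have hσ : Legal d [(⟨1, Finset.univ, 0, d⟩ : Task n)] := by
    refine ⟨?_, List.pairwise_singleton _ _⟩
    intro t ht
    rw [List.mem_singleton] at ht
    subst ht
    exact ⟨one_pos, Finset.univ_nonempty, le_rfl⟩
  have h1 := one_le_opt_single hn d hd
  have h2 := hA _ hσ
  have h3 := opt_le_integral_cost μ alg meas hn _ hσ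
  nlinarith

end Randomized


/-! ### The upper bound: the algorithm Robin Hood -/

section RobinHood

variable {n : ℕ}

/-- The load of machine `i` at time `s` for a list of tasks with their machines. -/
noncomputable def pload (P : List (Task n × Fin n)) (s : ℝ) (i : Fin n) : ℝ :=
  load (P.map Prod.fst) (P.map Prod.snd) s i

/-- The state of the algorithm: the assigned tasks, the lower bound `L` for the optimum, and for
every machine the number of the last arrival at which the machine was poor. -/
structure RHState (n : ℕ) where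
  P : List (Task n × Fin n)
  L : ℝ
  lp : Fin n → ℕ

noncomputable def newL (S : RHState n) (t : Task n) : ℝ :=
  max S.L (max t.weight ((t.weight + ∑ k, pload S.P t.arrival k) / n))

open Classical in
noncomputable def newLp (S : RHState n) (t : Task n) (k : Fin n) : ℕ :=
  if √n * newL S t ≤ pload S.P t.arrival k then S.lp k else S.P.length + 1

open Classical in
/-- A machine of `s` that maximizes `f`. -/
noncomputable def pick (i0 : Fin n) (f : Fin n → ℕ) (s : Finset (Fin n)) : Fin n :=
  if h : s.Nonempty then (Finset.exists_max_image s f h).choose else i0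

lemma pick_mem (i0 : Fin n) (f : Fin n → ℕ) (s : Finset (Fin n)) (h : s.Nonempty) :
    pick i0 f s ∈ s := by
  rw [pick, dif_pos h]
  exact (Finset.exists_max_image s f h).choose_spec.1

lemma le_pick (i0 : Fin n) (f : Fin n → ℕ) (s : Finset (Fin n)) (k : Fin n) (hk : k ∈ s) :
    f k ≤ f (pick i0 f s) := by
  have h : s.Nonempty := ⟨k, hk⟩
  rw [pick, dif_pos h]
  exact (Finset.exists_max_image s f h).choose_spec.2 k hk

noncomputable def step (i0 : Fin n) (S : RHState n) (t : Task n) : RHState n :=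
  ⟨S.P ++ [(t, pick i0 (newLp S t) t.adm)], newL S t, newLp S t⟩

noncomputable def st (i0 : Fin n) (h : List (Task n)) : RHState n :=
  h.foldl (step i0) ⟨[], 0, fun _ => 0⟩

noncomputable def robinHood (i0 : Fin n) : DetAlg n where
  choose h t := pick i0 (newLp (st i0 h) t) t.adm
  choose_mem _ _ ht := pick_mem i0 _ _ ht

lemma st_append (i0 : Fin n) (h : List (Task n)) (t : Task n) :
    st i0 (h ++ [t]) = step i0 (st i0 h) t := by
  simp [st, List.foldl_append]

lemma st_fst (i0 : Fin n) (σ : List (Task n)) : (st i0 σ).P.map Prod.fst = σ := by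
  induction σ using List.reverseRecOn with
  | nil => rfl
  | append_singleton σ t ih => rw [st_append]; simp [step, ih]

lemma st_snd (i0 : Fin n) (σ : List (Task n)) :
    (st i0 σ).P.map Prod.snd = (robinHood i0).run σ := by
  induction σ using List.reverseRecOn with
  | nil => rfl
  | append_singleton σ t ih =>
    rw [st_append, DetAlg.run, runFrom_append]
    simp only [step, List.map_append, ih]
    simp [DetAlg.run, DetAlg.runFrom, robinHood]

/-- The total weight of the entries of `Z` that satisfy `p` and are active at time `s`. -/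
noncomputable def tot (Z : List ((Task n × Fin n) × Fin n)) (p : (Task n × Fin n) × Fin n → Bool)
    (s : ℝ) : ℝ :=
  (Z.map fun e => if p e = true ∧ e.1.1.arrival ≤ s ∧ s < e.1.1.arrival + e.1.1.duration then
    e.1.1.weight else 0).sum

lemma tot_nil (p : (Task n × Fin n) × Fin n → Bool) (s : ℝ) : tot [] p s = 0 := by simp [tot]

lemma tot_cons (e : (Task n × Fin n) × Fin n) (Z : List ((Task n × Fin n) × Fin n))
    (p : (Task n × Fin n) × Fin n → Bool) (s : ℝ) :
    tot (e :: Z) p s = (if p e = true ∧ e.1.1.arrival ≤ s ∧ s < e.1.1.arrival + e.1.1.duration then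
      e.1.1.weight else 0) + tot Z p s := by simp [tot]

lemma tot_append (Z Z' : List ((Task n × Fin n) × Fin n))
    (p : (Task n × Fin n) × Fin n → Bool) (s : ℝ) :
    tot (Z ++ Z') p s = tot Z p s + tot Z' p s := by simp [tot]

lemma tot_nonneg (Z : List ((Task n × Fin n) × Fin n)) (hw : ∀ e ∈ Z, 0 ≤ e.1.1.weight)
    (p : (Task n × Fin n) × Fin n → Bool) (s : ℝ) : 0 ≤ tot Z p s := by
  apply List.sum_nonneg
  intro x hx
  obtain ⟨e, he, rfl⟩ := List.mem_map.1 hx
  split_ifs
  · exact hw e he
  · exact le_rfl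

lemma sum_tot (Z : List ((Task n × Fin n) × Fin n)) (g : (Task n × Fin n) × Fin n → Fin n)
    (R : Finset (Fin n)) (s : ℝ) :
    ∑ m ∈ R, tot Z (fun e => decide (g e = m)) s = tot Z (fun e => decide (g e ∈ R)) s := by
  induction Z with
  | nil => simp [tot]
  | cons e Z ih =>
    simp only [tot_cons, Finset.sum_add_distrib, ih]
    congr 1
    by_cases h : e.1.1.arrival ≤ s ∧ s < e.1.1.arrival + e.1.1.duration
    · simp only [h, and_true, decide_eq_true_eq]
      rw [Finset.sum_ite_eq]
    · have h' : ∀ q : Prop, ¬ (q ∧ e.1.1.arrival ≤ s ∧ s < e.1.1.arrival + e.1.1.duration) :=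
        fun q hq => h hq.2
      simp [h']

lemma tot_mono (Z : List ((Task n × Fin n) × Fin n)) (hw : ∀ e ∈ Z, 0 ≤ e.1.1.weight)
    (p q : (Task n × Fin n) × Fin n → Bool) (s : ℝ) (h : ∀ e ∈ Z, p e = true → q e = true) :
    tot Z p s ≤ tot Z q s := by
  induction Z with
  | nil => simp [tot]
  | cons e Z ih =>
    have h1 := ih (fun e' he' => hw e' (List.mem_cons_of_mem _ he'))
      (fun e' he' => h e' (List.mem_cons_of_mem _ he'))
    have h2 := hw e List.mem_cons_self
    have h3 := h e List.mem_cons_self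
    rw [tot_cons, tot_cons]
    split_ifs with h4 h5 h6
    · linarith
    · exact absurd ⟨h3 h4.1, h4.2⟩ h5
    · linarith
    · linarith

lemma tot_congr (Z : List ((Task n × Fin n) × Fin n))
    (p q : (Task n × Fin n) × Fin n → Bool) (s : ℝ) (h : ∀ e ∈ Z, p e = q e) :
    tot Z p s = tot Z q s := by
  rw [tot, tot]
  congr 1
  apply List.map_congr_left
  intro e he
  rw [h e he]

lemma tot_antitone_time (Z : List ((Task n × Fin n) × Fin n))
    (hw : ∀ e ∈ Z, 0 ≤ e.1.1.weight) (p : (Task n × Fin n) × Fin n → Bool) (s s' : ℝ)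
    (hs : s ≤ s') (h : ∀ e ∈ Z, e.1.1.arrival ≤ s) : tot Z p s' ≤ tot Z p s := by
  induction Z with
  | nil => simp [tot]
  | cons e Z ih =>
    have h1 := ih (fun e' he' => hw e' (List.mem_cons_of_mem _ he'))
      (fun e' he' => h e' (List.mem_cons_of_mem _ he'))
    have h2 := hw e List.mem_cons_self
    have h3 := h e List.mem_cons_self
    rw [tot_cons, tot_cons]
    split_ifs with h4 h5 h6
    · linarith
    · exact absurd ⟨h4.1, h3, by linarith [h4.2.2]⟩ h5
    · linarith
    · linarith

lemma pload_eq_tot (P : List (Task n × Fin n)) (a : List (Fin n)) (h : P.length = a.length)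
    (s : ℝ) (i : Fin n) :
    pload P s i = tot (P.zip a) (fun e => decide (e.1.2 = i)) s := by
  induction P generalizing a with
  | nil => simp [pload, load, tot]
  | cons q P ih =>
    cases a with
    | nil => simp at h
    | cons c a =>
      rw [List.zip_cons_cons, tot_cons, ← ih a (by simpa using h), pload, List.map_cons,
        List.map_cons, load_cons]
      simp [pload]

lemma load_eq_tot (P : List (Task n × Fin n)) (a : List (Fin n)) (h : P.length = a.length)
    (s : ℝ) (i : Fin n) :
    load (P.map Prod.fst) a s i = tot (P.zip a) (fun e => decide (e.2 = i)) s := by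
  induction P generalizing a with
  | nil => simp [load, tot]
  | cons q P ih =>
    cases a with
    | nil => simp at h
    | cons c a =>
      rw [List.zip_cons_cons, tot_cons, ← ih a (by simpa using h), List.map_cons, load_cons]
      simp


/-- The invariant of the analysis; `Z` lists the tasks with the machine of Robin Hood and the
machine of a fixed offline assignment whose loads are at most `K`. -/
def Inv (S : RHState n) (Z : List ((Task n × Fin n) × Fin n)) (K : ℝ) : Prop :=
  ∃ ρ : ℕ → Finset (Fin n),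
    (∀ m, 1 ≤ m → m ≤ Z.length → ((ρ m).card : ℝ) ≤ √n) ∧
    (∀ k m, S.lp k < m → m ≤ Z.length → k ∈ ρ m) ∧
    (∀ i, ∀ e ∈ Z.drop (S.lp i), e.1.2 = i → e.1.1.adm ⊆ ρ (S.lp i + 1)) ∧
    (∀ i s, (∀ e ∈ Z, e.1.1.arrival ≤ s) →
      tot (Z.take (S.lp i)) (fun e => decide (e.1.2 = i)) s ≤ (√n + 1) * K) ∧
    S.L ≤ K ∧ (∀ k, S.lp k ≤ Z.length) ∧
    (∀ s i, tot Z (fun e => decide (e.1.2 = i)) s ≤ (2 * √n + 1) * K)

lemma inv_step (hn : 1 ≤ n) (i0 : Fin n) (S : RHState n) (Z : List ((Task n × Fin n) × Fin n))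
    (t : Task n) (c : Fin n) (K : ℝ) (hlen : Z.length = S.P.length)
    (hload : ∀ s i, pload S.P s i = tot Z (fun e => decide (e.1.2 = i)) s)
    (H1 : ∀ e ∈ Z ++ [((t, pick i0 (newLp S t) t.adm), c)], 0 < e.1.1.weight)
    (H2 : ∀ e ∈ Z ++ [((t, pick i0 (newLp S t) t.adm), c)], e.2 ∈ e.1.1.adm)
    (H3 : ∀ e ∈ Z, e.1.1.arrival ≤ t.arrival) (H4 : 0 < t.duration)
    (HK : ∀ s m, tot (Z ++ [((t, pick i0 (newLp S t) t.adm), c)])
      (fun e => decide (e.2 = m)) s ≤ K)
    (hinv : Inv S Z K) :
    Inv (step i0 S t) (Z ++ [((t, pick i0 (newLp S t) t.adm), c)]) K := by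
  obtain ⟨ρ, ha, hb, hc, hd, he, hf, hg⟩ := hinv
  set r := pick i0 (newLp S t) t.adm with hr
  set e0 : (Task n × Fin n) × Fin n := ((t, r), c) with he0
  have hnR : (1 : ℝ) ≤ n := by exact_mod_cast hn
  have hsq : 1 ≤ √(n : ℝ) := by
    rw [← Real.sqrt_one]
    exact Real.sqrt_le_sqrt hnR
  have hsqn : √(n : ℝ) * √n = n := Real.mul_self_sqrt (by linarith)
  have hw0 : 0 < t.weight := H1 e0 (by simp)
  have H1' : ∀ e ∈ Z ++ [e0], 0 ≤ e.1.1.weight := fun e h => (H1 e h).le
  have H1Z : ∀ e ∈ Z, 0 ≤ e.1.1.weight := fun e h => H1' e (List.mem_append_left _ h)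
  have hcadm : c ∈ t.adm := H2 e0 (by simp)
  -- the new task is active at its arrival
  have hact : ∀ p : (Task n × Fin n) × Fin n → Bool, p e0 = true →
      tot [e0] p t.arrival = t.weight := by
    intro p hp
    rw [tot_cons, tot_nil, add_zero, if_pos ⟨hp, le_rfl, by simp [he0, H4]⟩]
  have hwK : t.weight ≤ K := by
    have h1 := HK t.arrival c
    rw [tot_append, hact _ (by simp [he0])] at h1
    have h2 := tot_nonneg Z H1Z (fun e => decide (e.2 = c)) t.arrival
    linarith
  have hK0 : 0 < K := hw0.trans_le hwK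
  have htotal : t.weight + ∑ k, pload S.P t.arrival k ≤ n * K := by
    have h1 : ∑ k, tot (Z ++ [e0]) (fun e => decide (e.1.2 = k)) t.arrival =
        t.weight + ∑ k, pload S.P t.arrival k := by
      simp only [tot_append, Finset.sum_add_distrib, hload]
      rw [add_comm, sum_tot [e0] (fun e => e.1.2) Finset.univ, hact _ (by simp)]
    have h2 : ∑ k, tot (Z ++ [e0]) (fun e => decide (e.1.2 = k)) t.arrival =
        ∑ m, tot (Z ++ [e0]) (fun e => decide (e.2 = m)) t.arrival := by
      rw [sum_tot _ (fun e => e.1.2), sum_tot _ (fun e => e.2)]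
      exact tot_congr _ _ _ _ (by simp)
    rw [← h1, h2]
    calc ∑ m, tot (Z ++ [e0]) (fun e => decide (e.2 = m)) t.arrival
        ≤ ∑ _m : Fin n, K := Finset.sum_le_sum fun m _ => HK _ m
      _ = n * K := by simp
  have hLK : newL S t ≤ K := by
    refine max_le he (max_le hwK ?_)
    rw [div_le_iff₀ (by linarith)]
    linarith
  have hLw : t.weight ≤ newL S t := (le_max_left _ _).trans (le_max_right _ _)
  have hL0 : 0 < newL S t := hw0.trans_le hLw
  have hLsum : ∑ k, pload S.P t.arrival k ≤ n * newL S t := by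
    have h1 : (t.weight + ∑ k, pload S.P t.arrival k) / n ≤ newL S t :=
      (le_max_right _ _).trans (le_max_right _ _)
    rw [div_le_iff₀ (by linarith)] at h1
    linarith
  classical
  set Rich : Finset (Fin n) :=
    Finset.univ.filter fun k => √n * newL S t ≤ pload S.P t.arrival k with hRich
  have hRcard : (Rich.card : ℝ) ≤ √n := by
    have h1 : (Rich.card : ℝ) * (√n * newL S t) ≤ ∑ k, pload S.P t.arrival k := by
      rw [← nsmul_eq_mul]
      refine (Finset.card_nsmul_le_sum Rich (fun k => pload S.P t.arrival k) _ ?_).trans ?_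
      · intro k hk
        exact (Finset.mem_filter.1 hk).2
      · apply Finset.sum_le_sum_of_subset_of_nonneg (Finset.subset_univ _)
        intro k _ _
        rw [hload]
        exact tot_nonneg Z H1Z _ _
    have h2 : (Rich.card : ℝ) * √n * newL S t ≤ √n * √n * newL S t := by
      rw [hsqn]
      linarith
    have h3 := le_of_mul_le_mul_right h2 hL0
    exact le_of_mul_le_mul_right h3 (by linarith)
  have hlpR : ∀ k, k ∈ Rich → newLp S t k = S.lp k := by
    intro k hk
    rw [newLp, if_pos (Finset.mem_filter.1 hk).2]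
  have hlpP : ∀ k, k ∉ Rich → newLp S t k = Z.length + 1 := by
    intro k hk
    rw [newLp, if_neg (fun h => hk (Finset.mem_filter.2 ⟨Finset.mem_univ k, h⟩)), hlen]
  have hlenZ : (Z ++ [e0]).length = Z.length + 1 := by simp
  set ρ' : ℕ → Finset (Fin n) := fun m => if m = Z.length + 1 then Rich else ρ m with hρ'
  have ha' : ∀ m, 1 ≤ m → m ≤ (Z ++ [e0]).length → ((ρ' m).card : ℝ) ≤ √n := by
    intro m hm1 hm2
    rw [hlenZ] at hm2
    rcases eq_or_ne m (Z.length + 1) with h | h
    · simp only [hρ', h, if_true]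
      exact hRcard
    · simp only [hρ', h, if_false]
      exact ha m hm1 (by omega)
  have hc' : ∀ i, ∀ e ∈ (Z ++ [e0]).drop (newLp S t i), e.1.2 = i →
      e.1.1.adm ⊆ ρ' (newLp S t i + 1) := by
    intro i e hee hei
    by_cases hi : i ∈ Rich
    · rw [hlpR i hi] at hee ⊢
      rw [List.drop_append_of_le_length (hf i), List.mem_append, List.mem_singleton] at hee
      rcases hee with hee | hee
      · have h1 := hc i e hee hei
        have h2 : S.lp i < Z.length := by
          by_contra hcon
          rw [List.drop_eq_nil_of_le (by omega)] at hee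
          simp at hee
        have h3 : S.lp i + 1 ≠ Z.length + 1 := by omega
        simp only [hρ', h3, if_false]
        exact h1
      · rw [hee] at hei ⊢
        have hri : r = i := hei
        intro k hk
        have h1 : newLp S t k ≤ newLp S t i := by
          rw [← hri]
          exact le_pick i0 _ _ k hk
        rw [hlpR i hi] at h1
        have hkR : k ∈ Rich := by
          by_contra hcon
          rw [hlpP k hcon] at h1
          have := hf i
          omega
        rw [hlpR k hkR] at h1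
        rcases Nat.lt_or_ge (S.lp i) Z.length with h2 | h2
        · have h3 : S.lp i + 1 ≠ Z.length + 1 := by omega
          simp only [hρ', h3, if_false]
          exact hb k (S.lp i + 1) (by omega) (by omega)
        · have h3 : S.lp i + 1 = Z.length + 1 := by
            have := hf i
            omega
          simp only [hρ', h3, if_true]
          exact hkR
    · rw [hlpP i hi, List.drop_eq_nil_of_le (by rw [hlenZ])] at hee
      simp at hee
  have hd' : ∀ i s, (∀ e ∈ Z ++ [e0], e.1.1.arrival ≤ s) →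
      tot ((Z ++ [e0]).take (newLp S t i)) (fun e => decide (e.1.2 = i)) s ≤ (√n + 1) * K := by
    intro i s hs
    by_cases hi : i ∈ Rich
    · rw [hlpR i hi, List.take_append_of_le_length (hf i)]
      exact hd i s fun e h => hs e (List.mem_append_left _ h)
    · rw [hlpP i hi, List.take_of_length_le (by rw [hlenZ]), tot_append]
      have hts : t.arrival ≤ s := hs e0 (by simp)
      have h1 := tot_antitone_time Z H1Z (fun e => decide (e.1.2 = i)) t.arrival s hts H3
      have h2 : tot [e0] (fun e => decide (e.1.2 = i)) s ≤ t.weight := by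
        rw [tot_cons, tot_nil, add_zero]
        split_ifs
        · exact le_rfl
        · exact hw0.le
      have h3 : tot Z (fun e => decide (e.1.2 = i)) t.arrival < √n * newL S t := by
        rw [← hload]
        by_contra hcon
        exact hi (Finset.mem_filter.2 ⟨Finset.mem_univ i, not_lt.1 hcon⟩)
      have h4 : √n * newL S t ≤ √n * K := mul_le_mul_of_nonneg_left hLK (by linarith)
      linarith
  refine ⟨ρ', ha', ?_, hc', hd', hLK, ?_, ?_⟩
  · intro k m hkm hm
    rw [hlenZ] at hm
    change newLp S t k < m at hkm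
    by_cases hk : k ∈ Rich
    · rcases eq_or_ne m (Z.length + 1) with h | h
      · simp only [hρ', h, if_true]
        exact hk
      · simp only [hρ', h, if_false]
        rw [hlpR k hk] at hkm
        exact hb k m hkm (by omega)
    · rw [hlpP k hk] at hkm
      omega
  · intro k
    change newLp S t k ≤ _
    rw [hlenZ]
    by_cases hk : k ∈ Rich
    · rw [hlpR k hk]
      have := hf k
      omega
    · rw [hlpP k hk]
  · intro s i
    rcases lt_or_ge s t.arrival with hs | hs
    · rw [tot_append]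
      have h1 : tot [e0] (fun e => decide (e.1.2 = i)) s = 0 := by
        rw [tot_cons, tot_nil, add_zero, if_neg]
        rintro ⟨-, h, -⟩
        exact absurd h (not_le.2 hs)
      rw [h1, add_zero]
      exact hg s i
    · have hall : ∀ e ∈ Z ++ [e0], e.1.1.arrival ≤ s := by
        intro e h
        rcases List.mem_append.1 h with h | h
        · exact (H3 e h).trans hs
        · rw [List.mem_singleton] at h
          rw [h]
          exact hs
      have h1 := hd' i s hall
      set D := (Z ++ [e0]).drop (newLp S t i) with hD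
      have hsplit : tot (Z ++ [e0]) (fun e => decide (e.1.2 = i)) s =
          tot ((Z ++ [e0]).take (newLp S t i)) (fun e => decide (e.1.2 = i)) s +
            tot D (fun e => decide (e.1.2 = i)) s := by
        rw [← tot_append, List.take_append_drop]
      have hDw : ∀ e ∈ D, 0 ≤ e.1.1.weight := fun e h => H1' e (List.mem_of_mem_drop h)
      have h2 : tot D (fun e => decide (e.1.2 = i)) s ≤ √n * K := by
        by_cases hDe : D = []
        · rw [hDe, tot_nil]
          positivity
        · have hlt : newLp S t i < (Z ++ [e0]).length := by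
            by_contra hcon
            exact hDe (List.drop_eq_nil_of_le (not_lt.1 hcon))
          have h3 := ha' (newLp S t i + 1) (by omega) (by omega)
          calc tot D (fun e => decide (e.1.2 = i)) s
              ≤ tot D (fun e => decide (e.2 ∈ ρ' (newLp S t i + 1))) s := by
                refine tot_mono D hDw _ _ s fun e h h' => ?_
                rw [decide_eq_true_eq] at h' ⊢
                exact hc' i e h h' (H2 e (List.mem_of_mem_drop h))
            _ = ∑ m ∈ ρ' (newLp S t i + 1), tot D (fun e => decide (e.2 = m)) s :=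
                (sum_tot D (fun e => e.2) _ s).symm
            _ ≤ ∑ _m ∈ ρ' (newLp S t i + 1), K := by
                refine Finset.sum_le_sum fun m _ => ?_
                refine le_trans ?_ (HK s m)
                have h4 : tot (Z ++ [e0]) (fun e => decide (e.2 = m)) s =
                    tot ((Z ++ [e0]).take (newLp S t i)) (fun e => decide (e.2 = m)) s +
                      tot D (fun e => decide (e.2 = m)) s := by
                  rw [← tot_append, List.take_append_drop]
                have h5 := tot_nonneg ((Z ++ [e0]).take (newLp S t i))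
                  (fun e h => H1' e (List.mem_of_mem_take h)) (fun e => decide (e.2 = m)) s
                linarith
            _ = (ρ' (newLp S t i + 1)).card * K := by simp
            _ ≤ √n * K := mul_le_mul_of_nonneg_right h3 hK0.le
      rw [hsplit]
      linarith


lemma rh_inv (hn : 1 ≤ n) (i0 : Fin n) {d : ℝ} (hd : 0 < d) (K : ℝ)
    (Q : List (Task n × Fin n)) (hQ : Legal d (Q.map Prod.fst))
    (hfeas : ∀ q ∈ Q, q.2 ∈ q.1.adm)
    (hK : ∀ s m, load (Q.map Prod.fst) (Q.map Prod.snd) s m ≤ K) :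
    Inv (st i0 (Q.map Prod.fst)) ((st i0 (Q.map Prod.fst)).P.zip (Q.map Prod.snd)) K := by
  induction Q using List.reverseRecOn with
  | nil =>
    have hK0 : 0 ≤ K := by
      have := hK 0 ⟨0, hn⟩
      simpa [load] using this
    have h1 : 0 ≤ √(n : ℝ) := Real.sqrt_nonneg _
    refine ⟨fun _ => ∅, ?_, ?_, ?_, ?_, ?_, ?_, ?_⟩
    · intro m hm1 hm2
      simp
    · intro k m h1 h2
      simp at h2
      omega
    · intro i e he
      simp at he
    · intro i s _
      simp only [List.map_nil, List.zip_nil_right, List.take_nil, tot_nil]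
      positivity
    · exact hK0
    · intro k
      exact Nat.zero_le _
    · intro s i
      simp only [List.map_nil, List.zip_nil_right, tot_nil]
      positivity
  | append_singleton Q q ih =>
    obtain ⟨t, c⟩ := q
    set σ := Q.map Prod.fst with hσ
    set a := Q.map Prod.snd with ha
    have hmf : (Q ++ [(t, c)]).map Prod.fst = σ ++ [t] := by simp [hσ]
    have hms : (Q ++ [(t, c)]).map Prod.snd = a ++ [c] := by simp [ha]
    rw [hmf] at hQ
    simp only [hmf, hms] at hK ⊢
    have hfst := st_fst i0 σ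
    have hlenP : (st i0 σ).P.length = σ.length := by
      conv_rhs => rw [← hfst]
      simp
    have hlen : (st i0 σ).P.length = a.length := by rw [hlenP, hσ, ha]; simp
    have hQσ : Legal d σ := ⟨fun u hu => hQ.1 u (List.mem_append_left _ hu),
      (List.pairwise_append.1 hQ.2).1⟩
    have hlσ : σ.length = a.length := by simp [hσ, ha]
    have hwt : 0 < t.weight := (hQ.1 t (by simp)).1
    have hKσ : ∀ s m, load σ a s m ≤ K := by
      intro s m
      have h1 := hK s m
      rw [load_append _ _ _ _ hlσ] at h1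
      have h2 := load_nonneg [t] (by intro u hu; rw [List.mem_singleton] at hu; rw [hu]; exact hwt.le)
        [c] s m
      linarith
    have hinv := ih hQσ (fun q hq => hfeas q (List.mem_append_left _ hq)) hKσ
    have hzip : (step i0 (st i0 σ) t).P.zip (a ++ [c]) =
        (st i0 σ).P.zip a ++ [((t, pick i0 (newLp (st i0 σ) t) t.adm), c)] := by
      rw [step, List.zip_append hlen]
      simp
    have hZ : ∀ e ∈ (st i0 σ).P.zip a, (e.1.1, e.2) ∈ Q := by
      intro e he
      have h1 : (e.1.1, e.2) ∈ ((st i0 σ).P.map Prod.fst).zip a := by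
        rw [List.zip_map_left]
        exact List.mem_map.2 ⟨e, he, rfl⟩
      rw [hfst, hσ, ha] at h1
      have h2 : (Q.map Prod.fst).zip (Q.map Prod.snd) = Q := by
        rw [← List.unzip_fst, ← List.unzip_snd]
        exact List.zip_unzip Q
      rwa [h2] at h1
    rw [st_append, hzip]
    refine inv_step hn i0 (st i0 σ) ((st i0 σ).P.zip a) t c K ?_ ?_ ?_ ?_ ?_ ?_ ?_ hinv
    · rw [List.length_zip, ← hlen, min_self]
    · exact fun s i => pload_eq_tot _ a hlen s i
    · intro e he
      rcases List.mem_append.1 he with he | he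
      · exact (hQσ.1 e.1.1 (List.mem_map.2 ⟨_, hZ e he, rfl⟩)).1
      · rw [List.mem_singleton] at he
        rw [he]
        exact hwt
    · intro e he
      rcases List.mem_append.1 he with he | he
      · exact hfeas _ (List.mem_append_left _ (hZ e he))
      · rw [List.mem_singleton] at he
        rw [he]
        exact hfeas (t, c) (by simp)
    · intro e he
      exact (List.pairwise_append.1 hQ.2).2.2 e.1.1 (List.mem_map.2 ⟨_, hZ e he, rfl⟩) t (by simp)
    · exact hd.trans_le (hQ.1 t (by simp)).2.2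
    · intro s m
      rw [← hzip]
      have hlen' : (step i0 (st i0 σ) t).P.length = (a ++ [c]).length := by
        simp [step, hlen]
      rw [← load_eq_tot _ _ hlen']
      have : (step i0 (st i0 σ) t).P.map Prod.fst = σ ++ [t] := by
        rw [← st_append, st_fst]
      rw [this]
      exact hK s m

lemma rh_competitive (hn : 1 ≤ n) (i0 : Fin n) {d : ℝ} (hd : 0 < d) (σ : List (Task n))
    (hσ : Legal d σ) : cost σ ((robinHood i0).run σ) ≤ (2 * √n + 1) * opt σ := by
  obtain ⟨a, ha, hopt⟩ := exists_opt σ fun t ht => (hσ.1 t ht).2.1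
  have hlen : σ.length = a.length := List.Forall₂.length_eq ha
  have h1 : (σ.zip a).map Prod.fst = σ := by
    rw [← List.unzip_fst, List.unzip_zip hlen]
  have h2 : (σ.zip a).map Prod.snd = a := by
    rw [← List.unzip_snd, List.unzip_zip hlen]
  have hfeas : ∀ q ∈ σ.zip a, q.2 ∈ q.1.adm := by
    intro q hq
    exact (List.forall₂_iff_zip.1 ha).2 hq
  have hinv := rh_inv hn i0 hd (opt σ) (σ.zip a) (by rw [h1]; exact hσ) hfeas (by
    intro s m
    rw [h1, h2, hopt]
    exact load_le_cost σ hσ.weight a s m)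
  rw [h1, h2] at hinv
  obtain ⟨ρ, -, -, -, -, -, -, hg⟩ := hinv
  have hlenP : (st i0 σ).P.length = a.length := by
    rw [← hlen]
    conv_rhs => rw [← st_fst i0 σ]
    simp
  refine cost_le hn _ _ _ fun s i => ?_
  have h3 : load σ ((robinHood i0).run σ) s i = pload (st i0 σ).P s i := by
    rw [pload, st_fst, st_snd]
  rw [h3, pload_eq_tot _ a hlenP]
  exact hg s i

end RobinHood

/-! ### The result -/

lemma det_ge_one {n : ℕ} (hn : 1 ≤ n) (A : DetAlg n) (d c : ℝ) (hd : 0 < d)
    (hA : ∀ σ, Legal d σ → cost σ (A.run σ) ≤ c * opt σ) : 1 ≤ c := by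
  have : Nonempty (Fin n) := ⟨⟨0, hn⟩⟩
  have hσ : Legal d [(⟨1, Finset.univ, 0, d⟩ : Task n)] := by
    refine ⟨?_, List.pairwise_singleton _ _⟩
    intro t ht
    rw [List.mem_singleton] at ht
    subst ht
    exact ⟨one_pos, Finset.univ_nonempty, le_rfl⟩
  have h1 := one_le_opt_single hn d hd
  have h2 := hA _ hσ
  have h3 := opt_le _ _ (runFrom_feasible A [] _ fun t ht => (hσ.1 t ht).2.1)
  have h4 : A.run [(⟨1, Finset.univ, 0, d⟩ : Task n)] = A.runFrom [] _ := rfl
  rw [h4] at h2
  nlinarith

/-- A deterministic algorithm as a randomized one. -/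
noncomputable def DetAlg.toRand {n : ℕ} (A : DetAlg n) : RandAlg n where
  Ω := Unit
  mΩ := inferInstance
  μ := Measure.dirac ()
  prob := inferInstance
  alg := fun _ => A
  meas := fun _ _ _ => MeasurableSet.of_discrete

lemma toRand_cost {n : ℕ} (A : DetAlg n) (σ : List (Task n)) :
    A.toRand.expectedCost σ = cost σ (A.run σ) := by
  change ∫ _ : Unit, cost σ (A.run σ) ∂(Measure.dirac ()) = _
  rw [integral_const, probReal_univ, one_smul]

/-- Upper bound: membership in the set defining `detRatio`. -/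
lemma det_mem {n : ℕ} (hn : 1 ≤ n) {d : ℝ} (hd : 0 < d) :
    (2 * √n + 1) ∈ {c : ℝ | ∃ A : DetAlg n, ∀ σ, Legal d σ → cost σ (A.run σ) ≤ c * opt σ} :=
  ⟨robinHood ⟨0, hn⟩, fun σ hσ => rh_competitive hn ⟨0, hn⟩ hd σ hσ⟩

lemma sqrt_third_le {n : ℕ} (c : ℝ) (h1 : 1 ≤ c)
    (h2 : ∀ k : ℕ, 1 ≤ k → k * k + 1 ≤ n → (k : ℝ) / 2 ≤ c) : √n / 3 ≤ c := by
  rcases Nat.lt_or_ge n 5 with hn | hn
  · have h3 : (n : ℝ) ≤ 2 ^ 2 := by
      have : n ≤ 4 := by omega
      have h4 : (n : ℝ) ≤ 4 := by exact_mod_cast this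
      linarith
    have h4 : √(n : ℝ) ≤ 2 := Real.sqrt_le_iff.2 ⟨by norm_num, h3⟩
    linarith
  · set k := Nat.sqrt (n - 1) with hk
    have hk2 : 2 ≤ k := by
      rw [hk, Nat.le_sqrt]
      omega
    have hkk : k * k ≤ n - 1 := Nat.sqrt_le (n - 1)
    have hlt : n - 1 < (k + 1) * (k + 1) := Nat.lt_succ_sqrt (n - 1)
    have h3 := h2 k (by omega) (by omega)
    have h4 : (n : ℝ) ≤ ((k : ℝ) + 1) ^ 2 := by
      have h5 : n ≤ (k + 1) * (k + 1) := by omega
      have h6 : (n : ℝ) ≤ ((k : ℝ) + 1) * ((k : ℝ) + 1) := by exact_mod_cast h5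
      linarith
    have h5 : √(n : ℝ) ≤ (k : ℝ) + 1 := Real.sqrt_le_iff.2 ⟨by positivity, h4⟩
    have h6 : (2 : ℝ) ≤ k := by exact_mod_cast hk2
    linarith

/-- **Main result.**  For every number `n ≥ 1` of machines and every minimum duration `d > 0`,
the best competitive ratios `c(n)` of online algorithms that know the durations satisfy
`√n / 3 ≤ c_rand(n) ≤ c_det(n) ≤ 2 √n + 1` and `c_det(n) ≥ ⌊√(n - 1)⌋`; in particular both are of
exact order `√n`. -/
theorem result (d : ℝ) (hd : 0 < d) :
    (∀ n : ℕ, 1 ≤ n →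
      √n / 3 ≤ randRatio d n ∧ randRatio d n ≤ detRatio d n ∧
        (Nat.sqrt (n - 1) : ℝ) ≤ detRatio d n ∧ detRatio d n ≤ 2 * √n + 1) ∧
    (fun n : ℕ => detRatio d n) =Θ[Filter.atTop] (fun n : ℕ => √n) ∧
    (fun n : ℕ => randRatio d n) =Θ[Filter.atTop] (fun n : ℕ => √n) := by
  have main : ∀ n : ℕ, 1 ≤ n →
      √n / 3 ≤ randRatio d n ∧ randRatio d n ≤ detRatio d n ∧
        (Nat.sqrt (n - 1) : ℝ) ≤ detRatio d n ∧ detRatio d n ≤ 2 * √n + 1 := by
    intro n hn
    have hdet := det_mem hn hd
    have hsub : {c : ℝ | ∃ A : DetAlg n, ∀ σ, Legal d σ → cost σ (A.run σ) ≤ c * opt σ} ⊆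
        {c | ∃ R : RandAlg n, ∀ σ, Legal d σ → R.expectedCost σ ≤ c * opt σ} := by
      rintro c ⟨A, hA⟩
      refine ⟨A.toRand, fun σ hσ => ?_⟩
      rw [toRand_cost]
      exact hA σ hσ
    have hbelow : BddBelow
        {c | ∃ R : RandAlg n, ∀ σ, Legal d σ → R.expectedCost σ ≤ c * opt σ} := by
      refine ⟨1, ?_⟩
      rintro c ⟨R, hR⟩
      exact @rand_ge_one n R.Ω R.mΩ R.μ R.prob R.alg R.meas hn d c hd hR
    have hbelow' : BddBelow
        {c : ℝ | ∃ A : DetAlg n, ∀ σ, Legal d σ → cost σ (A.run σ) ≤ c * opt σ} :=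
      hbelow.mono hsub
    refine ⟨?_, csInf_le_csInf hbelow ⟨_, hdet⟩ hsub, ?_, csInf_le hbelow' hdet⟩
    · refine le_csInf ⟨_, hsub hdet⟩ ?_
      rintro c ⟨R, hR⟩
      refine sqrt_third_le c (@rand_ge_one n R.Ω R.mΩ R.μ R.prob R.alg R.meas hn d c hd hR) ?_
      intro k hk hkn
      exact @rand_lower_aux n R.Ω R.mΩ R.μ R.prob R.alg R.meas d c hR k hk hkn
    · refine le_csInf ⟨_, hdet⟩ ?_
      rintro c ⟨A, hA⟩
      rcases Nat.eq_zero_or_pos (Nat.sqrt (n - 1)) with h0 | h0
      · rw [h0, Nat.cast_zero]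
        exact zero_le_one.trans (det_ge_one hn A d c hd hA)
      · have hkk : Nat.sqrt (n - 1) * Nat.sqrt (n - 1) ≤ n - 1 := Nat.sqrt_le (n - 1)
        exact det_lower A d c hA h0 (by omega)
  have hsq : ∀ n : ℕ, 1 ≤ n → 1 ≤ √(n : ℝ) := by
    intro n hn
    rw [← Real.sqrt_one]
    exact Real.sqrt_le_sqrt (by exact_mod_cast hn)
  have theta : ∀ f : ℕ → ℝ, (∀ n : ℕ, 1 ≤ n → √n / 3 ≤ f n ∧ f n ≤ 2 * √n + 1) →
      f =Θ[Filter.atTop] (fun n : ℕ => √n) := by
    intro f hf
    constructor
    · refine Asymptotics.IsBigO.of_bound 3 ?_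
      filter_upwards [Filter.eventually_ge_atTop 1] with n hn
      obtain ⟨h1, h2⟩ := hf n hn
      have h3 := hsq n hn
      rw [Real.norm_of_nonneg (by linarith), Real.norm_of_nonneg (by linarith)]
      linarith
    · refine Asymptotics.IsBigO.of_bound 3 ?_
      filter_upwards [Filter.eventually_ge_atTop 1] with n hn
      obtain ⟨h1, h2⟩ := hf n hn
      have h3 := hsq n hn
      rw [Real.norm_of_nonneg (by linarith), Real.norm_of_nonneg (by linarith)]
      linarith
  refine ⟨main, theta _ fun n hn => ?_, theta _ fun n hn => ?_⟩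
  · obtain ⟨h1, h2, -, h4⟩ := main n hn
    exact ⟨h1.trans h2, h4⟩
  · obtain ⟨h1, h2, -, h4⟩ := main n hn
    exact ⟨h1, h2.trans h4⟩

end Pool.Agent.Results.MP_df35d7_lc.SqrtOrder
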